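import Pool.Agent.helper43.KG.Spec

/-! # Project KG (MP_cef0b4_gt), row SHI (helper29) -/

set_option autoImplicit false

namespace Pool.Agent.helper43.KG

open Finset MeasureTheory ProbabilityTheory
open scoped ENNReal

theorem SHI_int {g : ℝ → ℝ} : Integrable g (gaussianReal 0 1) ↔
    Integrable (fun x => gaussianPDFReal 0 1 x * g x) := by
  rw [gaussianReal_of_var_ne_zero _ one_ne_zero,
    integrable_withDensity_iff_integrable_smul₀' (measurable_gaussianPDF 0 1).aemeasurable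
      (Filter.Eventually.of_forall fun x => by
        unfold gaussianPDF
        exact ENNReal.ofReal_lt_top)]
  refine Eq.to_iff ?_
  congr 1
  ext x
  rw [toReal_gaussianPDF, smul_eq_mul]

theorem SHI_pdf (m s : ℝ) : gaussianPDFReal 0 1 (s - m) =
    Real.exp (-(m ^ 2 / 2)) * (gaussianPDFReal 0 1 s * Real.exp (m * s)) := by
  unfold gaussianPDFReal
  have h1 : Real.exp (-(s - m - 0) ^ 2 / (2 * ((1 : NNReal) : ℝ))) =
      Real.exp (-(m ^ 2 / 2)) * (Real.exp (-(s - 0) ^ 2 / (2 * ((1 : NNReal) : ℝ))) *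
        Real.exp (m * s)) := by
    rw [← Real.exp_add, ← Real.exp_add, NNReal.coe_one]
    congr 1
    ring
  rw [h1]
  ring

theorem SHI_shift (g : ℝ → ℝ) (m : ℝ) (hg : Integrable (fun x => g (m + x)) (gaussianReal 0 1)) :
    Integrable (fun s => Real.exp (m * s) * g s) (gaussianReal 0 1) ∧
    ∫ x, g (m + x) ∂(gaussianReal 0 1) =
      Real.exp (-(m ^ 2 / 2)) * ∫ s, Real.exp (m * s) * g s ∂(gaussianReal 0 1) := by
  have h1 := SHI_int.1 hg
  have h2 := h1.comp_sub_right m
  have h3 : ∀ s : ℝ, gaussianPDFReal 0 1 (s - m) * g (m + (s - m)) =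
      Real.exp (-(m ^ 2 / 2)) * (gaussianPDFReal 0 1 s * (Real.exp (m * s) * g s)) := by
    intro s
    rw [SHI_pdf, add_sub_cancel]
    ring
  constructor
  · rw [SHI_int]
    have h4 : (fun s => gaussianPDFReal 0 1 s * (Real.exp (m * s) * g s)) =
        fun s => Real.exp (m ^ 2 / 2) * (gaussianPDFReal 0 1 (s - m) * g (m + (s - m))) := by
      ext s
      have h5 : Real.exp (m ^ 2 / 2) * Real.exp (-(m ^ 2 / 2)) = 1 := by
        rw [← Real.exp_add]
        have : m ^ 2 / 2 + -(m ^ 2 / 2) = 0 := by ring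
        rw [this, Real.exp_zero]
      rw [h3]
      calc gaussianPDFReal 0 1 s * (Real.exp (m * s) * g s)
          = 1 * (gaussianPDFReal 0 1 s * (Real.exp (m * s) * g s)) := by ring
        _ = (Real.exp (m ^ 2 / 2) * Real.exp (-(m ^ 2 / 2))) *
            (gaussianPDFReal 0 1 s * (Real.exp (m * s) * g s)) := by rw [h5]
        _ = Real.exp (m ^ 2 / 2) * (Real.exp (-(m ^ 2 / 2)) *
            (gaussianPDFReal 0 1 s * (Real.exp (m * s) * g s))) := by ring
    rw [h4]
    exact h2.const_mul _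
  · rw [integral_gaussianReal_eq_integral_smul one_ne_zero,
      integral_gaussianReal_eq_integral_smul one_ne_zero]
    simp only [smul_eq_mul]
    rw [← integral_sub_right_eq_self (fun x => gaussianPDFReal 0 1 x * g (m + x)) m,
      ← integral_const_mul]
    exact integral_congr_ae (Filter.Eventually.of_forall h3)

theorem SHI_cosh (y : ℝ) : 2 + y ^ 2 + y ^ 4 / 12 ≤ Real.exp y + Real.exp (-y) := by
  have h1 := sum_le_hasSum (Finset.range 3) (fun i _ => by
    have : (0 : ℝ) ≤ y ^ (2 * i) := by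
      rw [pow_mul]
      positivity
    positivity) (Real.hasSum_cosh y)
  have h2 : Real.exp y + Real.exp (-y) = 2 * Real.cosh y := by
    rw [Real.cosh_eq]
    ring
  rw [h2]
  simp only [Finset.sum_range_succ, Finset.sum_range_zero] at h1
  norm_num [Nat.factorial] at h1
  linarith

theorem t_shi (h : GIC) (hm : MOM) : SHI := by
  intro p m hp1 hp2
  have hcont : Continuous (fun x : ℝ => |x| ^ p) :=
    continuous_abs.rpow_const (fun x => Or.inr (by linarith))
  have hbd : ∀ x : ℝ, |(|x| ^ p)| ≤ 1 * (1 + x ^ 2) := by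
    intro x
    rw [abs_of_nonneg (Real.rpow_nonneg (abs_nonneg x) p), one_mul]
    rcases le_total |x| 1 with hx | hx
    · have := Real.rpow_le_one (abs_nonneg x) hx (by linarith : (0 : ℝ) ≤ p)
      nlinarith [sq_nonneg x]
    · have h1 := Real.rpow_le_rpow_of_exponent_le hx hp2
      rw [Real.rpow_two, sq_abs] at h1
      linarith
  have hi : ∀ a : ℝ, Integrable (fun x => |a + x| ^ p) (gaussianReal 0 1) := by
    intro a
    have := h (fun x => |x| ^ p) 1 a 1 hcont hbd
    simpa using this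
  obtain ⟨hI1, hE1⟩ := SHI_shift (fun x => |x| ^ p) m (hi m)
  obtain ⟨hI2, hE2⟩ := SHI_shift (fun x => |x| ^ p) (-m) (hi (-m))
  obtain ⟨-, hJ4, hJ2, hJ0, hV2, hV4⟩ := hm p (by linarith)
  have hG1 : GH p m 1 = ∫ x, |m + x| ^ p ∂(gaussianReal 0 1) := by
    unfold GH
    simp
  have hG0 : gam p = ∫ x, |x| ^ p ∂(gaussianReal 0 1) := by
    unfold gam GH
    simp
  have hsym : ∫ x, |(-m) + x| ^ p ∂(gaussianReal 0 1) = ∫ x, |m + x| ^ p ∂(gaussianReal 0 1) := by
    rw [integral_gaussianReal_eq_integral_smul one_ne_zero,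
      integral_gaussianReal_eq_integral_smul one_ne_zero]
    rw [← integral_neg_eq_self (fun x => gaussianPDFReal 0 1 x • |m + x| ^ p)]
    refine integral_congr_ae (Filter.Eventually.of_forall fun x => ?_)
    have h1 : gaussianPDFReal 0 1 (-x) = gaussianPDFReal 0 1 x := by
      unfold gaussianPDFReal
      congr 2
      ring
    have h2 : |m + -x| = |(-m) + x| := by
      rw [← abs_neg]
      congr 1
      ring
    simp only [h1, h2]
  have h2G : 2 * GH p m 1 = Real.exp (-(m ^ 2 / 2)) *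
      ∫ s, (Real.exp (m * s) * |s| ^ p + Real.exp ((-m) * s) * |s| ^ p) ∂(gaussianReal 0 1) := by
    rw [integral_add hI1 hI2, mul_add, ← hE1, hG1]
    have h3 : Real.exp (-((-m) ^ 2 / 2)) = Real.exp (-(m ^ 2 / 2)) := by rw [neg_sq]
    rw [h3] at hE2
    rw [← hE2, hsym]
    ring
  have hlow : 2 * gam p + m ^ 2 * ((p + 1) * gam p) + m ^ 4 / 12 * ((p + 1) * (p + 3) * gam p) ≤
      ∫ s, (Real.exp (m * s) * |s| ^ p + Real.exp ((-m) * s) * |s| ^ p) ∂(gaussianReal 0 1) := by
    have e1 : 2 * gam p + m ^ 2 * ((p + 1) * gam p) + m ^ 4 / 12 * ((p + 1) * (p + 3) * gam p) =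
        ∫ s, (2 * |s| ^ p + m ^ 2 * |s| ^ (p + 2) + m ^ 4 / 12 * |s| ^ (p + 4))
          ∂(gaussianReal 0 1) := by
      have a1 : Integrable (fun s : ℝ => 2 * |s| ^ p + m ^ 2 * |s| ^ (p + 2)) (gaussianReal 0 1) :=
        (hJ0.const_mul 2).add (hJ2.const_mul _)
      rw [integral_add a1 (hJ4.const_mul _),
        integral_add (hJ0.const_mul 2) (hJ2.const_mul _), integral_const_mul, integral_const_mul,
        integral_const_mul, hV2, hV4, hG0]
    rw [e1]
    refine integral_mono (((hJ0.const_mul 2).add (hJ2.const_mul _)).add (hJ4.const_mul _))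
      (hI1.add hI2) fun s => ?_
    show 2 * |s| ^ p + m ^ 2 * |s| ^ (p + 2) + m ^ 4 / 12 * |s| ^ (p + 4) ≤
      Real.exp (m * s) * |s| ^ p + Real.exp ((-m) * s) * |s| ^ p
    have hs2 : |s| ^ (p + 2) = |s| ^ p * s ^ 2 := by
      rw [Real.rpow_add_of_nonneg (abs_nonneg s) (by linarith) (by norm_num), Real.rpow_two, sq_abs]
    have hs4 : |s| ^ (p + 4) = |s| ^ p * s ^ 4 := by
      rw [Real.rpow_add_of_nonneg (abs_nonneg s) (by linarith) (by norm_num)]
      have : |s| ^ (4 : ℝ) = s ^ 4 := by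
        have h4 : (4 : ℝ) = ((4 : ℕ) : ℝ) := by norm_num
        rw [h4, Real.rpow_natCast]
        have : Even 4 := by decide
        exact this.pow_abs s
      rw [this]
    rw [hs2, hs4]
    have hc := SHI_cosh (m * s)
    have hn : (0 : ℝ) ≤ |s| ^ p := Real.rpow_nonneg (abs_nonneg s) p
    have h5 := mul_le_mul_of_nonneg_left hc hn
    have h6 : (-m) * s = -(m * s) := by ring
    rw [h6]
    calc 2 * |s| ^ p + m ^ 2 * (|s| ^ p * s ^ 2) + m ^ 4 / 12 * (|s| ^ p * s ^ 4)
        = |s| ^ p * (2 + (m * s) ^ 2 + (m * s) ^ 4 / 12) := by ring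
      _ ≤ |s| ^ p * (Real.exp (m * s) + Real.exp (-(m * s))) := h5
      _ = Real.exp (m * s) * |s| ^ p + Real.exp (-(m * s)) * |s| ^ p := by ring
  have h7 := mul_le_mul_of_nonneg_left hlow (Real.exp_pos (-(m ^ 2 / 2))).le
  rw [← h2G] at h7
  have h8 : Real.exp (-(m ^ 2 / 2)) *
      (2 * gam p + m ^ 2 * ((p + 1) * gam p) + m ^ 4 / 12 * ((p + 1) * (p + 3) * gam p)) =
      2 * (Real.exp (-(m ^ 2 / 2)) * gam p *
        (1 + (p + 1) * m ^ 2 / 2 + (p + 1) * (p + 3) * m ^ 4 / 24)) := by ring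
  rw [h8] at h7
  linarith

end Pool.Agent.helper43.KG
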